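import Pool.Agent.Lib_MP_38e082_ap.Core

/-!
# The set mapping with the disjointness clause, and the descent along increasing sequences

`S` is a well-ordered set of size `lam⁺` with initial segments of size at most `lam`, and `J` is a
well-order; `k j < lam` (`j : J`) are increasing and cofinal in `lam`. The points `z < x` with
`e x z < k j` form the set `P_j(x)` of size at most `k j`. The sets `A x j ⊆ Iio x` have size at
most `k j`, they are free for `z ↦ A z j`, they meet the sets `Y ξ`, `ξ ∈ P_j(x)`, and `A x j` is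
disjoint from `A z i` for all `z ∈ P_j(x)` and `i ≤ j`.
-/

namespace Pool.Agent.Lib_MP_38e082_un

open Cardinal Set Order Pool.Agent.Lib_MP_38e082_ap

section
variable {S : Type} [LinearOrder S] [WellFoundedLT S] {J : Type} [LinearOrder J]
variable {lam mu : Cardinal.{0}}

/-- the properties of the sets `B j` at the point `x` -/
def Spec (lam : Cardinal.{0}) (k : J → Cardinal.{0}) (Y : S → Set S)
    (e : S → S → Ordinal.{0}) (x : S) (prev : ∀ y, y < x → J → Set S) (B : J → Set S) : Prop :=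
  ∀ j, #(B j) ≤ k j ∧ (∀ y ∈ B j, y < x) ∧
    (∀ y ∈ B j, ∀ z ∈ B j, ∀ hz : z < x, y ∉ prev z hz j) ∧
    (∀ y ∈ B j, ∀ z, ∀ hz : z < x, e x z < (k j).ord → ∀ i ≤ j, y ∉ prev z hz i) ∧
    ∀ ξ < x, e x ξ < (k j).ord → lam ≤ #(Y ξ ∩ Iio x : Set S) → ∃ y ∈ B j, y ∈ Y ξ

omit [WellFoundedLT S] in
theorem exists_spec (hl : ℵ₀ ≤ lam) (hlim : ∀ c < lam, succ c < lam)
    (k : J → Cardinal.{0}) (hk1 : ∀ j, ℵ₀ ≤ k j) (hk2 : ∀ j, k j < lam) (hmono : Monotone k)
    (hkJ : ∀ j : J, #(Iic j) ≤ k j)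
    (Y : S → Set S) (e : S → S → Ordinal.{0}) (x : S) (he : InjOn (e x) (Iio x))
    (prev : ∀ y, y < x → J → Set S)
    (hp : ∀ y hy j, #(prev y hy j) ≤ k j ∧ prev y hy j ⊆ Iio y) :
    ∃ B, Spec lam k Y e x prev B := by
  classical
  have key : ∀ j, ∃ B : Set S, #B ≤ k j ∧ (∀ y ∈ B, y < x) ∧
      (∀ y ∈ B, ∀ z ∈ B, ∀ hz : z < x, y ∉ prev z hz j) ∧
      (∀ y ∈ B, ∀ z, ∀ hz : z < x, e x z < (k j).ord → ∀ i ≤ j, y ∉ prev z hz i) ∧
      ∀ ξ < x, e x ξ < (k j).ord → lam ≤ #(Y ξ ∩ Iio x : Set S) → ∃ y ∈ B, y ∈ Y ξ := by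
    intro j
    let I : Type := {ξ : S // ξ < x ∧ e x ξ < (k j).ord ∧ lam ≤ #(Y ξ ∩ Iio x : Set S)}
    have hI : #I ≤ k j := by
      have h1 : #({ξ : S | ξ < x ∧ e x ξ < (k j).ord ∧ lam ≤ #(Y ξ ∩ Iio x : Set S)}) ≤ k j := by
        refine card_le_of_rank (e := e x) ?_ ?_
        · intro a ha b hb hab
          exact he ha.1 hb.1 hab
        · intro t ht
          exact ht.2.1
      exact h1
    -- the excluded set
    let Z : Type := {z : S // z < x ∧ e x z < (k j).ord}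
    have hZ : #Z ≤ k j := by
      have h1 : #({z : S | z < x ∧ e x z < (k j).ord}) ≤ k j := by
        refine card_le_of_rank (e := e x) ?_ ?_
        · intro a ha b hb hab
          exact he ha.1 hb.1 hab
        · intro t ht
          exact ht.2
      exact h1
    let E : Set S := ⋃ p : Z × Iic j, prev p.1.1 p.1.2.1 p.2.1
    have hE : #E ≤ k j := by
      have h1 : #(Z × Iic j) ≤ k j := by
        rw [mk_prod, lift_id, lift_id]
        refine (mul_le_mul' hZ (hkJ j)).trans ?_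
        exact (mul_eq_self (hk1 j)).le
      refine (mk_iUnion_le _).trans ?_
      refine (mul_le_mul' h1 (ciSup_le' fun p => ?_)).trans (mul_eq_self (hk1 j)).le
      exact (hp _ _ _).1.trans (hmono p.2.2)
    let R : S → S → Prop := fun a b => ∃ h : b < x, a ∈ prev b h j
    have irr : ∀ a, ¬ R a a := by
      rintro a ⟨h, h1⟩
      exact lt_irrefl a ((hp a h j).2 h1)
    have hR : ∀ b, #{a // R a b} ≤ k j := by
      intro b
      by_cases hbx : b < x
      · have h1 : #({a | R a b} : Set S) ≤ #(prev b hbx j) := by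
          refine mk_le_mk_of_subset ?_
          rintro a ⟨_, h⟩
          exact h
        exact h1.trans (hp b hbx j).1
      · have h1 : IsEmpty {a // R a b} := ⟨fun a => hbx a.2.1⟩
        rw [mk_eq_zero]
        exact zero_le
    have hY : ∀ i : I, succ (k j) < #({y | y ∈ Y i.1 ∧ y < x ∧ y ∉ E} : Set S) := by
      intro i
      by_contra hcon
      rw [not_lt] at hcon
      have h1 : (Y i.1 ∩ Iio x : Set S) ⊆ {y | y ∈ Y i.1 ∧ y < x ∧ y ∉ E} ∪ E := by
        rintro y ⟨hy1, hy2⟩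
        by_cases h : y ∈ E
        · exact Or.inr h
        · exact Or.inl ⟨hy1, hy2, h⟩
      have h2 : #(Y i.1 ∩ Iio x : Set S) < lam := by
        refine (mk_le_mk_of_subset h1).trans_lt ((mk_union_le _ _).trans_lt ?_)
        exact add_lt_of_lt hl (hcon.trans_lt (hlim _ (hk2 j))) (hE.trans_lt (hk2 j))
      exact absurd h2 (not_lt.2 i.2.2.2)
    obtain ⟨h, hh1, hh2⟩ := Pool.Agent.FreeSets.exists_transversal (k j) (hk1 j) hI R irr hR
      (fun i : I => {y | y ∈ Y i.1 ∧ y < x ∧ y ∉ E}) hY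
    refine ⟨range h, mk_range_le.trans hI, ?_, ?_, ?_, ?_⟩
    · rintro _ ⟨i, rfl⟩
      exact (hh1 i).2.1
    · rintro _ ⟨i, rfl⟩ _ ⟨i', rfl⟩ hz hmem
      exact hh2 i i' ⟨hz, hmem⟩
    · rintro _ ⟨i, rfl⟩ z hz hez i' hi' hmem
      exact (hh1 i).2.2 (mem_iUnion.2 ⟨(⟨z, hz, hez⟩, ⟨i', hi'⟩), hmem⟩)
    · intro ξ hξ h1 h2
      exact ⟨h ⟨ξ, hξ, h1, h2⟩, ⟨_, rfl⟩, (hh1 ⟨ξ, hξ, h1, h2⟩).1⟩
  choose B hB using key
  exact ⟨B, hB⟩

/-- **the construction** -/
theorem exists_A (hl : ℵ₀ ≤ lam) (hlim : ∀ c < lam, succ c < lam)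
    (hS : #S = succ lam) (hIio : ∀ x : S, #(Iio x) ≤ lam) (h2 : 2 ^ lam = succ lam)
    (k : J → Cardinal.{0}) (hk1 : ∀ j, ℵ₀ ≤ k j) (hk2 : ∀ j, k j < lam) (hmono : Monotone k)
    (hk3 : ∀ c < lam, ∃ j, c < k j) (hkJ : ∀ j : J, #(Iic j) ≤ k j) :
    ∃ (A : S → J → Set S) (P : S → J → Set S),
      (∀ x j, A x j ⊆ Iio x) ∧ (∀ x, Monotone (P x)) ∧ (∀ x, ∀ z < x, ∃ j, z ∈ P x j) ∧
      (∀ x j, ∀ y ∈ A x j, ∀ z ∈ A x j, y ∉ A z j) ∧
      (∀ x j, ∀ y ∈ A x j, ∀ z < x, z ∈ P x j → ∀ i ≤ j, y ∉ A z i) ∧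
      ∀ X : Set S, #X = succ lam →
        #(⋂ x ∈ X, {y | y < x ∧ ∀ j, y ∉ A x j} : Set S) < lam := by
  classical
  obtain ⟨Y, hY⟩ := exists_enum hl hS h2
  have hex : ∀ x : S, ∃ e : S → Ordinal.{0}, (∀ t ∈ Iio x, e t < lam.ord) ∧ InjOn e (Iio x) :=
    fun x => exists_rank (Iio x) (hIio x)
  choose e he1 he2 using hex
  let A : S → J → Set S := WellFoundedLT.fix fun x prev =>
    if h : ∃ B, Spec lam k Y e x prev B then h.choose else fun _ => ∅
  have hA : ∀ x, A x = if h : ∃ B, Spec lam k Y e x (fun y _ => A y) B then h.choose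
      else fun _ => ∅ := fun x => WellFoundedLT.fix_eq _ x
  have hspec : ∀ x, Spec lam k Y e x (fun y _ => A y) (A x) := by
    intro x
    induction x using WellFoundedLT.induction with
    | ind x ih =>
      have h := exists_spec hl hlim k hk1 hk2 hmono hkJ Y e x (he2 x) (fun y _ => A y)
        (fun y hy j => ⟨(ih y hy j).1, fun z hz => (ih y hy j).2.1 z hz⟩)
      have h3 := hA x
      rw [dif_pos h] at h3
      rw [h3]
      exact h.choose_spec
  refine ⟨A, fun x j => {z | e x z < (k j).ord}, ?_, ?_, ?_, ?_, ?_, ?_⟩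
  · intro x j y hy
    exact (hspec x j).2.1 y hy
  · intro x i j hij z hz
    exact lt_of_lt_of_le hz (ord_le_ord.2 (hmono hij))
  · intro x z hz
    obtain ⟨j, hj⟩ := hk3 (e x z).card (lt_ord.1 (he1 x z hz))
    exact ⟨j, lt_ord.2 hj⟩
  · intro x j y hy z hz
    exact (hspec x j).2.2.1 y hy z hz ((hspec x j).2.1 z hz)
  · intro x j y hy z hz hzP i hi
    exact (hspec x j).2.2.2.1 y hy z hz hzP i hi
  · intro X hX
    by_contra hcon
    rw [not_lt] at hcon
    obtain ⟨Z, hZ1, hZ2⟩ := le_mk_iff_exists_subset.1 hcon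
    obtain ⟨ξ, hξ⟩ := hY Z hZ2
    have h3 : ∃ x ∈ X, ξ < x := by
      by_contra hno
      push Not at hno
      have h4 : X ⊆ insert ξ (Iio ξ) := by
        intro x hx
        rcases (hno x hx).lt_or_eq with h | h
        · exact Or.inr h
        · exact Or.inl h
      have h5 : #X ≤ lam := by
        refine (mk_le_mk_of_subset h4).trans (mk_insert_le.trans ?_)
        exact add_le_of_le hl (hIio ξ) (one_le_aleph0.trans hl)
      rw [hX] at h5
      exact absurd (lt_succ lam) (not_lt.2 h5)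
    obtain ⟨x, hx, hξx⟩ := h3
    have h6 : Z ⊆ {y | y < x ∧ ∀ j, y ∉ A x j} := fun z hz => mem_iInter₂.1 (hZ1 hz) x hx
    have h7 : Y ξ ∩ Iio x = Z := by
      rw [hξ]
      exact inter_eq_left.2 fun z hz => (h6 hz).1
    obtain ⟨j, hj⟩ := hk3 (e x ξ).card (lt_ord.1 (he1 x ξ hξx))
    obtain ⟨y, hy1, hy2⟩ := (hspec x j).2.2.2.2 ξ hξx (lt_ord.2 hj) (by rw [h7, hZ2])
    rw [hξ] at hy2
    exact (h6 hy2).2 j hy1

end

/-! ### The descent -/

section
variable {S : Type} [LinearOrder S] {J : Type} [LinearOrder J] [WellFoundedLT J]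

/-- **the descent**: `y` lies below the increasing sequence `z`, which lies below `x`; if all
points of the sequence are in `P_i(x)` and in `P_i` of the later ones then `y` belongs to
`A x j` for some `j ≤ i` -/
theorem descent (A P : S → J → Set S) (hP : ∀ x, Monotone (P x))
    (hT : ∀ x j, ∀ y ∈ A x j, ∀ z < x, z ∈ P x j → ∀ i ≤ j, y ∉ A z i)
    (z : ℕ → S) (x y : S) (i : J) (hz : StrictMono z) (hzx : ∀ n, z n < x)
    (hzz : ∀ n m, n < m → z n ∈ P (z m) i) (hzP : ∀ n, z n ∈ P x i)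
    (hyx : ∃ j, y ∈ A x j) (hyz : ∀ n, ∃ j, y ∈ A (z n) j) : ∃ j ≤ i, y ∈ A x j := by
  classical
  by_contra hcon
  push Not at hcon
  obtain ⟨j, hj⟩ := hyx
  have hij : i < j := by
    by_contra h
    exact hcon j (not_lt.1 h) hj
  let u : ℕ → J := fun n => wellFounded_lt.min {j | y ∈ A (z n) j} (hyz n)
  have hu : ∀ n, y ∈ A (z n) (u n) := fun n =>
    wellFounded_lt.min_mem {j | y ∈ A (z n) j} (hyz n)
  have hui : ∀ n, i < u n := by
    intro n
    by_contra h
    exact hT x j y hj (z n) (hzx n) (hP x hij.le (hzP n)) (u n)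
      ((not_lt.1 h).trans hij.le) (hu n)
  have hanti : StrictAnti u := by
    intro n m hnm
    by_contra h
    exact hT (z m) (u m) y (hu m) (z n) (hz hnm) (hP (z m) (hui m).le (hzz n m hnm)) (u n)
      (not_lt.1 h) (hu n)
  exact not_strictAnti_of_wellFoundedLT u hanti

end

end Pool.Agent.Lib_MP_38e082_un
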