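import Pool.Agent.Lib_MP_38e082_un.Seq
import Pool.Agent.Lib_MP_38e082_ap.Fin

/-!
# The theorem
-/

namespace Pool.Agent.Lib_MP_38e082_un

open Cardinal Set Order Pool.Agent.Lib_MP_38e082_ap

section
variable {lam : Cardinal.{0}}

theorem countable_bdd (h0 : ℵ₀ ≤ lam) (hu : ℵ₀ < lam.ord.cof) (g : ℕ → lam.ord.cof.ord.ToType) :
    ∃ j, ∀ n, g n ≤ j := by
  by_contra hno
  push Not at hno
  have h1 : IsCofinal (range g) := fun a => by
    obtain ⟨n, hn⟩ := hno a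
    exact ⟨g n, ⟨n, rfl⟩, hn.le⟩
  have h2 := Order.cof_le h1
  rw [Ordinal.cof_toType, (isRegular_cof (isSuccLimit_ord h0)).cof_ord] at h2
  have h3 : #(range g) ≤ ℵ₀ := mk_range_le.trans (by simp)
  exact absurd (h2.trans h3) (not_le.2 hu)

/-- **the theorem for uncountable cofinality** -/
theorem final_unc (h0 : ℵ₀ ≤ lam) (hs : lam.ord.cof < lam) (h2 : 2 ^ lam = succ lam)
    (hmu : ∀ c < lam.ord.cof, (2 : Cardinal.{0}) ^ c ≤ lam.ord.cof) (hu : ℵ₀ < lam.ord.cof) :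
    ∃ f : (succ lam).ord.ToType → Set (succ lam).ord.ToType, (∀ x, f x ⊆ Iio x) ∧
      (∀ X : Set (succ lam).ord.ToType, #X = succ lam →
        #(⋂ x ∈ X, f x : Set (succ lam).ord.ToType) < lam) ∧
      ∀ H : Set (succ lam).ord.ToType, #H = succ lam.ord.cof →
        ∃ x ∈ H, ∃ y ∈ H, x ≠ y ∧ y ∈ f x := by
  classical
  have hlim := lim_of_singular h0 hs
  have hmu0 : ℵ₀ ≤ lam.ord.cof := hu.le
  obtain ⟨K, hK, hK1, hKm, hK2, hK3⟩ := exists_K h0 hs
  have hS : #((succ lam).ord.ToType) = succ lam := mk_ord_toType _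
  have hIio : ∀ x : (succ lam).ord.ToType, #(Iio x) ≤ lam := fun x => by
    have := mk_Iio_lt x (by simp)
    rw [hS] at this
    exact lt_succ_iff.1 this
  have hJ : #(lam.ord.cof.ord.ToType) = lam.ord.cof := mk_ord_toType _
  have hJ1 : ∀ j : lam.ord.cof.ord.ToType, #(Iic j) < lam.ord.cof := fun j => by
    have h1 := mk_Iio_lt j (by simp)
    rw [hJ] at h1
    have h3 : (Iic j : Set lam.ord.cof.ord.ToType) ⊆ insert j (Iio j) := by
      intro x hx
      rcases (mem_Iic.1 hx).lt_or_eq with h | h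
      · exact Or.inr h
      · exact Or.inl h
    refine (mk_le_mk_of_subset h3).trans_lt (mk_insert_le.trans_lt ?_)
    exact add_lt_of_lt hmu0 h1 (one_lt_aleph0.trans_le hmu0)
  exact core h0 hlim hmu0 (hlim _ hs).le hS hIio h2 K hK1 hK2 hK hK3
    (fun j => (hJ1 j).le.trans (hKm j)) hJ.le hJ1 (countable_bdd h0 hu) hmu

/-- **the theorem** -/
theorem final (h0 : ℵ₀ ≤ lam) (hs : lam.ord.cof < lam) (h2 : 2 ^ lam = succ lam)
    (hmu : ∀ c < lam.ord.cof, (2 : Cardinal.{0}) ^ c ≤ lam.ord.cof)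
    (h : ℵ₀ < lam.ord.cof ∨ Approachable lam.ord.cof (succ lam).ord.ToType ∨
      BoundedColouring lam lam.ord.cof (succ lam).ord.ToType) :
    ∃ f : (succ lam).ord.ToType → Set (succ lam).ord.ToType, (∀ x, f x ⊆ Iio x) ∧
      (∀ X : Set (succ lam).ord.ToType, #X = succ lam →
        #(⋂ x ∈ X, f x : Set (succ lam).ord.ToType) < lam) ∧
      ∀ H : Set (succ lam).ord.ToType, #H = succ lam.ord.cof →
        ∃ x ∈ H, ∃ y ∈ H, x ≠ y ∧ y ∈ f x := by
  rcases h with h | h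
  · exact final_unc h0 hs h2 hmu h
  · exact Pool.Agent.Lib_MP_38e082_ap.final h0 hs h2 hmu h

theorem not_arrow (h0 : ℵ₀ ≤ lam) (hs : lam.ord.cof < lam) (h2 : 2 ^ lam = succ lam)
    (hmu : ∀ c < lam.ord.cof, (2 : Cardinal.{0}) ^ c ≤ lam.ord.cof)
    (h : ℵ₀ < lam.ord.cof ∨ Approachable lam.ord.cof (succ lam).ord.ToType ∨
      BoundedColouring lam lam.ord.cof (succ lam).ord.ToType) :
    ¬ Arrow (succ lam) (succ lam) lam (succ lam.ord.cof) := by
  intro hA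
  obtain ⟨f, h1, h3, h4⟩ := final h0 hs h2 hmu h
  obtain ⟨H, hH1, hH2⟩ := hA (succ lam).ord.ToType f (mk_ord_toType _)
    (fun x hx => lt_irrefl x (h1 x hx)) (fun x => by
      refine (mk_le_mk_of_subset (h1 x)).trans_lt ?_
      have := mk_Iio_lt x (by simp)
      rwa [mk_ord_toType] at this) h3
  obtain ⟨x, hx, y, hy, hxy, hyx⟩ := h4 H hH1
  exact hH2 x hx y hy hxy hyx

end

end Pool.Agent.Lib_MP_38e082_un
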