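import Pool.Agent.Lib_MP_38e082_un.Core
import Pool.Agent.Lib_MP_38e082_ap.Appr

/-!
# Increasing sequences with bounded colours, and the theorem for uncountable cofinality

Every set `B` of size `mu⁺` (`mu` regular and uncountable) has a subset `X` of size `mu⁺` and a
colour `i` such that below each `x ∈ X` and above each `y ∈ X`, `y < x`, there is an increasing
sequence of points of `B` whose points are in `P_i(x)` and in `P_i` of the later ones.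
-/

namespace Pool.Agent.Lib_MP_38e082_un

open Cardinal Set Order Pool.Agent.Lib_MP_38e082_ap

section
variable {S : Type} [LinearOrder S] [WellFoundedLT S] {J : Type} [LinearOrder J]
variable {lam mu : Cardinal.{0}}

theorem exists_seq (hmu : ℵ₀ ≤ mu) (hml : succ mu ≤ lam) (hl : ℵ₀ ≤ lam)
    (hS : #S = succ lam) (hIio : ∀ x : S, #(Iio x) ≤ lam) (hJ : #J ≤ mu)
    (hJb : ∀ g : ℕ → J, ∃ j, ∀ n, g n ≤ j)
    (P : S → J → Set S) (hP : ∀ x, Monotone (P x)) (hPx : ∀ x, ∀ z < x, ∃ j, z ∈ P x j)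
    (B : Set S) (hB : #B = succ mu) :
    ∃ X ⊆ B, #X = succ mu ∧ ∃ i : J, ∀ x ∈ X, ∀ y ∈ X, y < x → ∃ z : ℕ → S, StrictMono z ∧
      (∀ n, z n ∈ B ∧ y < z n ∧ z n < x ∧ z n ∈ P x i) ∧ ∀ n m, n < m → z n ∈ P (z m) i := by
  classical
  obtain ⟨B0, hB0, δ, hc, hδ, hcof, hbd, -⟩ := exists_sup hmu hml hl hS hIio B hB
  have hnx : ∀ t : B0, ∃ t' : B0, t < t' := fun t => by
    obtain ⟨b, hb, htb⟩ := hcof t.1 (hδ t.1 t.2)
    exact ⟨⟨b, hb⟩, htb⟩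
  choose nxt hnxt using hnx
  obtain ⟨z, hz0, hz1⟩ : ∃ z : B0 → ℕ → B0, (∀ a, z a 0 = a) ∧
      ∀ a n, z a (n + 1) = nxt (z a n) :=
    ⟨fun a n => nxt^[n] a, fun a => rfl, fun a n => Function.iterate_succ_apply' nxt n a⟩
  have hmon : ∀ a, StrictMono (z a) := fun a =>
    strictMono_nat_of_lt_succ fun n => by rw [hz1]; exact hnxt _
  -- the limit points
  have hL0 : ∀ a : B0, {t : B0 | ∀ n, z a n < t}.Nonempty := by
    intro a
    have h1 : #(range fun n => (z a n).1) ≤ mu := by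
      refine le_trans ?_ hmu
      exact mk_range_le.trans (by simp)
    obtain ⟨β, hβ, hβ2⟩ := hbd (range fun n => (z a n).1) (by
      rintro _ ⟨n, rfl⟩
      exact hδ _ (z a n).2) h1
    obtain ⟨b, hb, hβb⟩ := hcof β hβ
    exact ⟨⟨b, hb⟩, fun n => (hβ2 _ ⟨n, rfl⟩).trans hβb⟩
  obtain ⟨L, hL1, hL2⟩ : ∃ L : B0 → B0, (∀ a n, z a n < L a) ∧
      ∀ a y, y < L a → ∃ n, y ≤ z a n := by
    refine ⟨fun a => wellFounded_lt.min _ (hL0 a), fun a n => ?_, fun a y hy => ?_⟩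
    · exact wellFounded_lt.min_mem _ (hL0 a) n
    · by_contra hno
      push Not at hno
      exact wellFounded_lt.not_lt_min {t : B0 | ∀ n, z a n < t} hno hy
  -- the colours
  have hcol : ∀ a : B0, ∃ i : J, (∀ n, (z a n).1 ∈ P (L a).1 i) ∧
      ∀ n m, n < m → (z a n).1 ∈ P (z a m).1 i := by
    intro a
    have h1 : ∀ n, ∃ j, (z a n).1 ∈ P (L a).1 j := fun n => hPx _ _ (hL1 a n)
    choose g hg using h1
    obtain ⟨i1, hi1⟩ := hJb g
    have h2 : ∀ m, ∃ j, ∀ n, n < m → (z a n).1 ∈ P (z a m).1 j := by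
      intro m
      have h3 : ∀ n, ∃ j, n < m → (z a n).1 ∈ P (z a m).1 j := by
        intro n
        by_cases hnm : n < m
        · obtain ⟨j, hj⟩ := hPx (z a m).1 (z a n).1 (hmon a hnm)
          exact ⟨j, fun _ => hj⟩
        · exact ⟨i1, fun h => absurd h hnm⟩
      choose g' hg' using h3
      obtain ⟨j, hj⟩ := hJb g'
      exact ⟨j, fun n hn => hP _ (hj n) (hg' n hn)⟩
    choose g2 hg2 using h2
    obtain ⟨i2, hi2⟩ := hJb g2
    refine ⟨max i1 i2, fun n => hP _ ((hi1 n).trans (le_max_left _ _)) (hg n), fun n m hnm => ?_⟩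
    exact hP _ ((hi2 m).trans (le_max_right _ _)) (hg2 m n hnm)
  choose κ hκ1 hκ2 using hcol
  -- one colour suffices
  obtain ⟨i, hi⟩ : ∃ i : J, ¬ #({x : S | ∃ a : B0, κ a = i ∧ (L a).1 = x}) ≤ mu := by
    by_contra hno
    push Not at hno
    have h1 : ∀ i : J, ∃ β, β < δ ∧ ∀ c ∈ {x : S | ∃ a : B0, κ a = i ∧ (L a).1 = x}, c < β := by
      intro i
      obtain ⟨β, hβ, hβ2⟩ := hbd {x : S | ∃ a : B0, κ a = i ∧ (L a).1 = x} (by
        rintro _ ⟨a, -, rfl⟩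
        exact hδ _ (L a).2) (hno i)
      exact ⟨β, hβ, hβ2⟩
    choose β hβ1 hβ2 using h1
    obtain ⟨β', hβ', hβ3⟩ := hbd (range β) (by
      rintro _ ⟨i, rfl⟩
      exact hβ1 i) (mk_range_le.trans hJ)
    obtain ⟨b, hb, hβb⟩ := hcof β' hβ'
    have h2 := hβ2 (κ ⟨b, hb⟩) (L ⟨b, hb⟩).1 ⟨⟨b, hb⟩, rfl, rfl⟩
    have h3 := hβ3 (β (κ ⟨b, hb⟩)) ⟨_, rfl⟩
    have h4 : (⟨b, hb⟩ : B0) < L ⟨b, hb⟩ := by
      have := hL1 ⟨b, hb⟩ 0
      rwa [hz0] at this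
    have h5 : b < (L ⟨b, hb⟩).1 := h4
    exact absurd (h5.trans (h2.trans (h3.trans hβb))) (lt_irrefl b)
  refine ⟨{x : S | ∃ a : B0, κ a = i ∧ (L a).1 = x}, ?_, ?_, i, ?_⟩
  · rintro _ ⟨a, -, rfl⟩
    exact hB0 (L a).2
  · refine le_antisymm ?_ (succ_le_of_lt (not_le.1 hi))
    refine (mk_le_mk_of_subset (t := B0) ?_).trans hc.le
    rintro _ ⟨a, -, rfl⟩
    exact (L a).2
  · rintro _ ⟨a, ha, rfl⟩ _ ⟨b, hb, rfl⟩ hlt
    obtain ⟨n0, hn0⟩ := hL2 a (L b) hlt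
    refine ⟨fun n => (z a (n0 + 1 + n)).1, ?_, ?_, ?_⟩
    · intro n m hnm
      exact hmon a (Nat.add_lt_add_left hnm _)
    · intro n
      refine ⟨hB0 (z a _).2, ?_, hL1 a _, ?_⟩
      · have h1 : L b < z a (n0 + 1 + n) := lt_of_le_of_lt hn0 (hmon a (by omega))
        exact h1
      · rw [← ha]
        exact hκ1 a _
    · intro n m hnm
      rw [← ha]
      exact hκ2 a _ _ (Nat.add_lt_add_left hnm _)

/-- **uncountable cofinality**: the set mapping without free sets of size `mu⁺` -/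
theorem core [WellFoundedLT J] (hl : ℵ₀ ≤ lam) (hlim : ∀ c < lam, succ c < lam) (hmu : ℵ₀ ≤ mu)
    (hml : succ mu ≤ lam)
    (hS : #S = succ lam) (hIio : ∀ x : S, #(Iio x) ≤ lam) (h2 : 2 ^ lam = succ lam)
    (k : J → Cardinal.{0}) (hk1 : ∀ j, ℵ₀ ≤ k j) (hk2 : ∀ j, k j < lam) (hmono : Monotone k)
    (hk3 : ∀ c < lam, ∃ j, c < k j) (hkJ : ∀ j : J, #(Iic j) ≤ k j)
    (hJ0 : #J ≤ mu) (hJ : ∀ j : J, #(Iic j) < mu) (hJb : ∀ g : ℕ → J, ∃ j, ∀ n, g n ≤ j)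
    (hmu2 : ∀ c < mu, (2 : Cardinal.{0}) ^ c ≤ mu) :
    ∃ f : S → Set S, (∀ x, f x ⊆ Iio x) ∧
      (∀ X : Set S, #X = succ lam → #(⋂ x ∈ X, f x : Set S) < lam) ∧
      ∀ H : Set S, #H = succ mu → ∃ x ∈ H, ∃ y ∈ H, x ≠ y ∧ y ∈ f x := by
  classical
  obtain ⟨A, P, hA, hP, hPx, hfree, hT, hinter⟩ :=
    exists_A hl hlim hS hIio h2 k hk1 hk2 hmono hk3 hkJ
  refine ⟨fun x => {y | y < x ∧ ∀ j, y ∉ A x j}, fun x y hy => hy.1, hinter, ?_⟩
  intro H hH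
  by_contra hno
  push Not at hno
  have hpair0 : ∀ x ∈ H, ∀ y ∈ H, x < y → ∃ j, x ∈ A y j := by
    intro x hx y hy hxy
    have h3 := hno y hy x hx hxy.ne'
    simp only [mem_ofPred_eq, not_and, not_forall, not_not] at h3
    exact h3 hxy
  obtain ⟨X, hX1, hX2, i, hX3⟩ := exists_seq hmu hml hl hS hIio hJ0 hJb P hP hPx H hH
  have hpair : ∀ x ∈ X, ∀ y ∈ X, x < y → ∃ j : Iic i, x ∈ A y j := by
    intro x hx y hy hxy
    obtain ⟨z, hz1, hz2, hz3⟩ := hX3 y hy x hx hxy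
    obtain ⟨j, hj1, hj2⟩ := descent A P hP hT z y x i hz1 (fun n => (hz2 n).2.2.1) hz3
      (fun n => (hz2 n).2.2.2) (hpair0 x (hX1 hx) y (hX1 hy) hxy)
      (fun n => hpair0 x (hX1 hx) (z n) (hz2 n).1 (hz2 n).2.1)
    exact ⟨⟨j, hj1⟩, hj2⟩
  obtain ⟨R, hR⟩ := Pool.Agent.FreeSetsG.exists_code (W := S) (J := Iic i)
    (fun j x y => x ∈ A y j) (by
      intro j x y z h3 h4 h5
      exact hfree z j x h5 y h4 h3) X hpair
  have h5 : #X ≤ #(Set (Iic i × Iic i)) :=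
    mk_le_of_injective (f := fun b : X => R b.1) (injOn_iff_injective.1 hR)
  have h6 : #(Set (Iic i × Iic i)) ≤ mu := by
    have h7 : #(Iic i × Iic i) = #(Iic i) * #(Iic i) := by simp
    rw [mk_set, h7]
    exact hmu2 _ (mul_lt_of_lt hmu (hJ i) (hJ i))
  rw [hX2] at h5
  exact absurd (lt_succ mu) (not_lt.2 (h5.trans h6))

end

end Pool.Agent.Lib_MP_38e082_un
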